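import Pool.Agent.W619.Y.LDefs
import Pool.Agent.W619.PQ.Approx

/-! The group acts transitively on the places over a place of the fixed field. -/

set_option autoImplicit false

universe u v

open FF IntermediateField

namespace Pool.Agent.W314.PG.CONJ

theorem ord_prod {k L ι : Type*} [Field k] [Field L] [Algebra k L] (w : Place k L) (s : Finset ι)
    (a : ι → L) (ha : ∀ i ∈ s, a i ≠ 0) : w.ord (∏ i ∈ s, a i) = ∑ i ∈ s, w.ord (a i) := by
  classical
  induction s using Finset.induction_on with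
  | empty => simp [w.ord_one]
  | insert i s hi ih =>
    rw [Finset.prod_insert hi, Finset.sum_insert hi,
      w.ord_mul (ha i (Finset.mem_insert_self _ _))
        (Finset.prod_ne_zero_iff.2 fun j hj => ha j (Finset.mem_insert_of_mem hj)),
      ih fun j hj => ha j (Finset.mem_insert_of_mem hj)]

theorem main : Pool.Agent.W619.Y.S_CONJ.{u, v} := by
  classical
  intro k L _ _ _ _ _ G _ v w w' e e' hw hw'
  have : Fintype G := Fintype.ofFinite G
  by_contra hcon
  push Not at hcon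
  have hw2 : ∀ g : G, w'.comp (g : L ≃ₐ[k] L) ≠ w := by
    intro g hg
    obtain ⟨z, hz⟩ := hcon g⁻¹
    apply hz
    have h1 : w.ord (((g⁻¹ : G) : L ≃ₐ[k] L) z) =
        w'.ord ((g : L ≃ₐ[k] L) (((g⁻¹ : G) : L ≃ₐ[k] L) z)) := by
      conv_lhs => rw [← hg]
      rfl
    rw [h1]
    congr 1
    have h2 : (g : L ≃ₐ[k] L) (((g⁻¹ : G) : L ≃ₐ[k] L) z) = ((g * g⁻¹ : G) : L ≃ₐ[k] L) z := rfl
    rw [h2, mul_inv_cancel]
    rfl
  set S : Finset (Place k L) := ((Finset.univ.image fun g : G => w.comp (g : L ≃ₐ[k] L)) ∪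
    (Finset.univ.image fun g : G => w'.comp (g : L ≃ₐ[k] L))).erase w with hS
  obtain ⟨z, hz0, hzw, hzS⟩ := Pool.Agent.W619.PQ.sep_many S w (Finset.notMem_erase _ _)
  have h1 := Pool.Agent.W619.PQ.ord_one_add_of_neg hz0 hzw
  set y : L := (1 + z)⁻¹ with hy
  have hy0 : y ≠ 0 := inv_ne_zero h1.1
  have hyw : 0 < w.ord y := by rw [hy, w.ord_inv, h1.2]; omega
  have hyS : ∀ Q ∈ S, Q.ord y = 0 := by
    intro Q hQ
    rw [hy, Q.ord_inv, (Pool.Agent.W619.PQ.ord_one_add_of_pos hz0 (hzS Q hQ)).2, neg_zero]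
  have hgy : ∀ g ∈ (Finset.univ : Finset G), (g : L ≃ₐ[k] L) y ≠ 0 := fun g _ => by
    simpa using hy0
  -- the norm
  set N : L := ∏ g : G, (g : L ≃ₐ[k] L) y with hN
  have hNf : N ∈ fixedField G := by
    rw [IntermediateField.mem_fixedField_iff]
    intro f hf
    rw [hN, map_prod]
    exact Fintype.prod_equiv (Equiv.mulLeft (⟨f, hf⟩ : G)) _ _ fun g => rfl
  have e1 := hw.2 ⟨N, hNf⟩
  have e2 := hw'.2 ⟨N, hNf⟩
  have a1 : algebraMap (fixedField G) L ⟨N, hNf⟩ = N := rfl
  rw [a1] at e1 e2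
  have s2 : w'.ord N = 0 := by
    rw [hN, ord_prod w' _ _ hgy]
    refine Finset.sum_eq_zero fun g _ => ?_
    have h2 := hyS (w'.comp (g : L ≃ₐ[k] L)) (by
      rw [hS, Finset.mem_erase]
      exact ⟨hw2 g, Finset.mem_union_right _ (Finset.mem_image_of_mem _ (Finset.mem_univ g))⟩)
    exact h2
  have s1 : 0 < w.ord N := by
    rw [hN, ord_prod w _ _ hgy]
    refine Finset.sum_pos' (fun g _ => ?_) ⟨1, Finset.mem_univ _, ?_⟩
    · by_cases hg : w.comp (g : L ≃ₐ[k] L) = w
      · have h2 : w.ord ((g : L ≃ₐ[k] L) y) = w.ord y := by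
          conv_rhs => rw [← hg]
          rfl
        rw [h2]
        exact hyw.le
      · have h2 := hyS (w.comp (g : L ≃ₐ[k] L)) (by
          rw [hS, Finset.mem_erase]
          exact ⟨hg, Finset.mem_union_left _ (Finset.mem_image_of_mem _ (Finset.mem_univ g))⟩)
        exact h2.ge
    · exact hyw
  rw [s2] at e2
  have h3 : v.ord ⟨N, hNf⟩ = 0 := by
    rcases mul_eq_zero.1 e2.symm with h | h
    · have := hw'.1
      omega
    · exact h
  rw [h3, mul_zero] at e1
  omega

end Pool.Agent.W314.PG.CONJ
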